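import Pool.Agent.J6H86.LH.Cert

set_option autoImplicit false

/-! A certificate that forms with coefficients in `K[X]` have no common zero generically. -/

namespace Pool.Agent.J6H86.KS

open MvPolynomial Pool.Agent.J6H86.LH

lemma hom_mul {R : Type*} [CommRing R] {σ : Type*} {F : MvPolynomial σ R} {d : ℕ}
    (hF : F.IsHomogeneous d) (A : MvPolynomial σ R) (m : ℕ) :
    homogeneousComponent (m + d) (A * F) = homogeneousComponent m A * F := by
  classical
  have h1 : A * F = ∑ i ∈ Finset.range (A.totalDegree + 1), homogeneousComponent i A * F := by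
    rw [← Finset.sum_mul, sum_homogeneousComponent]
  rw [h1, map_sum]
  have h2 : ∀ i, homogeneousComponent (m + d) (homogeneousComponent i A * F) =
      if i = m then homogeneousComponent i A * F else 0 := by
    intro i
    rw [homogeneousComponent_of_mem ((homogeneousComponent_isHomogeneous i A).mul hF)]
    by_cases h : i = m
    · rw [if_pos h, if_pos (by rw [h])]
    · rw [if_neg h, if_neg (by omega)]
  simp only [h2]
  rw [Finset.sum_ite_eq']
  split_ifs with h
  · rfl
  · rw [Finset.mem_range, not_lt] at h
    rw [homogeneousComponent_eq_zero _ _ (by omega), zero_mul]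

open scoped Polynomial in
/-- The certificate. -/
theorem exists_cert_poly {K : Type*} [Field K] {σ ι : Type*} [Fintype σ] [Fintype ι]
    (P : ι → MvPolynomial σ K[X]) {d : ℕ} (hP : ∀ j, (P j).IsHomogeneous d)
    (h : ∀ y : σ → AlgebraicClosure (FractionRing K[X]), (∀ j, aeval y (P j) = 0) → y = 0) :
    ∃ (r : K[X]) (e : ℕ) (A : σ → ι → MvPolynomial σ K[X]), r ≠ 0 ∧
      (∀ l j, (A l j).IsHomogeneous e) ∧ ∀ l, C r * X l ^ (e + d) = ∑ j, A l j * P j := by
  classical
  set L := FractionRing K[X]
  let φ : MvPolynomial σ K[X] →+* MvPolynomial σ L := MvPolynomial.map (algebraMap K[X] L)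
  have hφ : Function.Injective φ := MvPolynomial.map_injective _ (IsFractionRing.injective K[X] L)
  -- certificates over the field
  have h1 : ∀ l : σ, ∃ (e : ℕ) (Q : ι × Unit → MvPolynomial σ L),
      X l ^ e - ∑ x, Q x * φ (P x.1) ∈ (⊥ : Ideal (MvPolynomial σ L)) := by
    intro l
    refine exists_cert ⊥ (fun (j : ι) (_ : Unit) => φ (P j)) (fun y hy _ => ?_) l
    by_contra hcon
    push Not at hcon
    apply hy
    apply h
    intro j
    have h2 := hcon j ()
    rw [aeval_map_algebraMap] at h2
    exact h2
  choose e Q hQ using h1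
  simp only [Ideal.mem_bot, sub_eq_zero, Fintype.sum_prod_type, Finset.univ_unique,
    Finset.sum_singleton] at hQ
  -- a common exponent
  set E := ∑ l, e l with hE
  let B : σ → ι → MvPolynomial σ L := fun l j => X l ^ (E + d - e l) * Q l (j, default)
  have hle : ∀ l, e l ≤ E := fun l => Finset.single_le_sum (fun i _ => Nat.zero_le (e i)) (Finset.mem_univ l)
  have hB : ∀ l, X l ^ (E + d) = ∑ j, B l j * φ (P j) := by
    intro l
    have h3 : E + d = (E + d - e l) + e l := by
      have := hle l
      omega
    rw [h3, pow_add, hQ l, Finset.mul_sum]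
    refine Finset.sum_congr rfl fun j _ => ?_
    rw [← mul_assoc]
  -- denominators
  let alg : Algebra (MvPolynomial σ K[X]) (MvPolynomial σ L) := φ.toAlgebra
  have hloc : IsLocalization ((nonZeroDivisors K[X]).map (C (σ := σ))) (MvPolynomial σ L) :=
    MvPolynomial.isLocalization (nonZeroDivisors K[X]) L
  obtain ⟨b, hb⟩ := IsLocalization.exist_integer_multiples_of_finite
    ((nonZeroDivisors K[X]).map (C (σ := σ))) (fun x : σ × ι => B x.1 x.2)
  obtain ⟨r, hr, hrb⟩ := b.2
  have hr0 : r ≠ 0 := nonZeroDivisors.ne_zero hr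
  choose A hA using hb
  have hid : ∀ l, C r * X l ^ (E + d) = ∑ j, A (l, j) * P j := by
    intro l
    apply hφ
    rw [map_mul, map_sum, map_pow]
    have h4 : φ (X l) = X l := MvPolynomial.map_X _ _
    rw [h4, hB l, Finset.mul_sum]
    refine Finset.sum_congr rfl fun j _ => ?_
    rw [map_mul, ← mul_assoc]
    congr 1
    have h5 : φ (A (l, j)) = (b : MvPolynomial σ K[X]) • B l j := hA (l, j)
    rw [h5, Algebra.smul_def]
    congr 1
    rw [← hrb]
    rfl
  refine ⟨r, E, fun l j => homogeneousComponent E (A (l, j)), hr0,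
    fun l j => homogeneousComponent_isHomogeneous _ _, fun l => ?_⟩
  have h6 := congrArg (homogeneousComponent (E + d)) (hid l)
  rw [map_sum] at h6
  have h7 : homogeneousComponent (E + d) (C r * X l ^ (E + d)) = (C r * X l ^ (E + d) : MvPolynomial σ K[X]) := by
    apply homogeneousComponent_eq_self
    have := (isHomogeneous_C σ r).mul (isHomogeneous_X_pow (R := K[X]) l (E + d))
    rwa [zero_add] at this
  rw [h7] at h6
  rw [h6]
  exact Finset.sum_congr rfl fun j _ => hom_mul (hP j) _ _

end Pool.Agent.J6H86.KS
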