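import Pool.Agent.J6H86.KS.Setup
import Pool.Agent.J6H86.LH.Alg

set_option autoImplicit false

/-! Degrees of the iterates of a skew product over a translation. -/

namespace Pool.Agent.J6H86.KS

open MvPolynomial Finset
open scoped Polynomial

/-- components of the iterates of a polynomial map -/
noncomputable def iter {K : Type*} [CommRing K] {σ : Type*} (f : σ → MvPolynomial σ K) :
    ℕ → σ → MvPolynomial σ K
  | 0 => X
  | n + 1 => fun a => bind₁ (iter f n) (f a)

variable {K : Type*} [Field K] {k : ℕ}

/-- a polynomial in `y` over `K[t]` as a polynomial in `t` (`none`) and `y` (`some i`) -/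
noncomputable def toAff : MvPolynomial (Fin k) K[X] →+* MvPolynomial (Option (Fin k)) K :=
  eval₂Hom (Polynomial.aeval (X none)).toRingHom fun i => X (some i)

/-- the skew product `(t, y) ↦ (t + 1, F (t, y))` -/
noncomputable def skew (F : Fin k → MvPolynomial (Fin k) K[X]) :
    Option (Fin k) → MvPolynomial (Option (Fin k)) K := fun a =>
  a.elim (X none + 1) fun j => toAff (F j)

lemma hom_toAff {R : Type*} [CommRing R] [Algebra K R] (Y : Option (Fin k) → R)
    (G : MvPolynomial (Fin k) K[X]) :
    aeval Y (toAff G) = eval₂ (Polynomial.aeval (Y none)).toRingHom (fun i => Y (some i)) G := by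
  have h : ((aeval Y : MvPolynomial (Option (Fin k)) K →ₐ[K] R).toRingHom).comp toAff =
      eval₂Hom (Polynomial.aeval (Y none)).toRingHom fun i => Y (some i) := by
    apply MvPolynomial.ringHom_ext
    · intro c
      simp only [RingHom.comp_apply, toAff, eval₂Hom_C]
      change aeval Y (Polynomial.aeval (X none : MvPolynomial (Option (Fin k)) K) c) =
        Polynomial.aeval (Y none) c
      rw [← Polynomial.aeval_algHom_apply, aeval_X]
    · intro i
      simp [toAff]
  exact RingHom.congr_fun h G

lemma td_eval₂ {R S : Type*} [CommRing R] [CommRing S] {σ τ : Type*} (φ : R →+* MvPolynomial τ S)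
    (e : ℕ) (g : σ → MvPolynomial τ S) (T D : ℕ) (hg : ∀ i, (g i).totalDegree ≤ T)
    (G : MvPolynomial σ R) (hφ : ∀ β, (φ (coeff β G)).totalDegree ≤ e) (hG : G.totalDegree ≤ D) :
    (eval₂ φ g G).totalDegree ≤ e + D * T := by
  classical
  rw [eval₂_eq]
  refine totalDegree_finsetSum_le fun β hβ => ?_
  refine (totalDegree_mul _ _).trans (Nat.add_le_add (hφ β) ?_)
  refine (totalDegree_finsetProd _ _).trans ?_
  calc ∑ i ∈ β.support, (g i ^ β i).totalDegree ≤ ∑ i ∈ β.support, β i * T :=
        sum_le_sum fun i _ => (totalDegree_pow _ _).trans (Nat.mul_le_mul_left _ (hg i))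
    _ = (β.sum fun _ m => m) * T := by rw [Finsupp.sum, sum_mul]
    _ ≤ D * T := Nat.mul_le_mul_right _ ((le_totalDegree hβ).trans hG)

lemma iter_none (F : Fin k → MvPolynomial (Fin k) K[X]) (n : ℕ) :
    iter (skew F) n none = X none + C (n : K) := by
  induction n with
  | zero => simp [iter]
  | succ n ih =>
    change bind₁ (iter (skew F) n) (X none + 1) = _
    rw [map_add, bind₁_X_right, ih, map_one]
    push_cast
    rw [map_add, map_one, add_assoc]

lemma iter_some (F : Fin k → MvPolynomial (Fin k) K[X]) (n : ℕ) (j : Fin k) :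
    iter (skew F) (n + 1) (some j) = eval₂ (Polynomial.aeval (iter (skew F) n none)).toRingHom
      (fun i => iter (skew F) n (some i)) (F j) := hom_toAff _ _

/-- upper bound for the degrees of the iterates -/
theorem deg_upper {d : ℕ} (hd : 2 ≤ d) (F : Fin k → MvPolynomial (Fin k) K[X])
    (hF : ∀ j, (F j).totalDegree ≤ d) :
    ∃ C : ℕ, ∀ n a, (iter (skew F) n a).totalDegree ≤ C * d ^ n := by
  classical
  let e₀ : ℕ := ∑ j, ∑ β ∈ (F j).support, (coeff β (F j)).natDegree
  have he : ∀ j β, (coeff β (F j)).natDegree ≤ e₀ := by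
    intro j β
    by_cases hβ : β ∈ (F j).support
    · calc (coeff β (F j)).natDegree ≤ ∑ β ∈ (F j).support, (coeff β (F j)).natDegree :=
            single_le_sum (f := fun β => (coeff β (F j)).natDegree) (fun _ _ => Nat.zero_le _) hβ
        _ ≤ e₀ := single_le_sum (f := fun j => ∑ β ∈ (F j).support, (coeff β (F j)).natDegree)
            (fun _ _ => Nat.zero_le _) (mem_univ j)
    · rw [notMem_support_iff.1 hβ, Polynomial.natDegree_zero]
      exact Nat.zero_le _
  have hnone : ∀ n, (iter (skew F) n none).totalDegree ≤ 1 := by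
    intro n
    rw [iter_none]
    refine (totalDegree_add _ _).trans (max_le ?_ ?_)
    · rw [totalDegree_X]
    · rw [totalDegree_C]
      exact Nat.zero_le _
  have hpol : ∀ n (p : K[X]), p.natDegree ≤ e₀ →
      ((Polynomial.aeval (iter (skew F) n none)).toRingHom p).totalDegree ≤ e₀ := by
    intro n p hp
    change (Polynomial.aeval (iter (skew F) n none) p).totalDegree ≤ e₀
    rw [Polynomial.aeval_eq_sum_range]
    refine totalDegree_finsetSum_le fun i hi => ?_
    refine (totalDegree_smul_le _ _).trans ((totalDegree_pow _ _).trans ?_)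
    rw [mem_range] at hi
    calc i * (iter (skew F) n none).totalDegree ≤ i * 1 := Nat.mul_le_mul_left _ (hnone n)
      _ ≤ e₀ := by omega
  have hmain : ∀ n j, (iter (skew F) n (some j)).totalDegree + e₀ ≤ (1 + e₀) * d ^ n := by
    intro n
    induction n with
    | zero =>
      intro j
      change (X (some j) : MvPolynomial (Option (Fin k)) K).totalDegree + e₀ ≤ _
      rw [totalDegree_X, pow_zero, mul_one]
    | succ n ih =>
      intro j
      have hT : ∀ i, (iter (skew F) n (some i)).totalDegree ≤ (1 + e₀) * d ^ n - e₀ := fun i => by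
        have := ih i
        omega
      have h1 := td_eval₂ (Polynomial.aeval (iter (skew F) n none)).toRingHom e₀ _ _ d hT (F j)
        (fun β => hpol n _ (he j β)) (hF j)
      rw [iter_some]
      have h2 : e₀ ≤ (1 + e₀) * d ^ n := by have := ih j; omega
      calc _ ≤ e₀ + d * ((1 + e₀) * d ^ n - e₀) + e₀ := Nat.add_le_add_right h1 _
        _ ≤ (1 + e₀) * d ^ (n + 1) := by
            obtain ⟨x, hx⟩ := Nat.exists_eq_add_of_le h2
            rw [hx, Nat.add_sub_cancel_left, pow_succ, ← mul_assoc, hx]
            nlinarith
  refine ⟨1 + e₀, fun n a => ?_⟩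
  cases a with
  | none =>
    refine (hnone n).trans ?_
    have : 0 < (1 + e₀) * d ^ n := by positivity
    omega
  | some j =>
    have := hmain n j
    omega

lemma td_pow {S : Type*} [CommRing S] [IsDomain S] {τ : Type*} (g : MvPolynomial τ S) (m : ℕ) :
    (g ^ m).totalDegree = m * g.totalDegree := by
  by_cases hg : g = 0
  · subst hg
    cases m with
    | zero => simp
    | succ m => simp
  · induction m with
    | zero => simp
    | succ m ih =>
      rw [pow_succ, totalDegree_mul_of_isDomain (pow_ne_zero _ hg) hg, ih]
      ring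

/-- lower bound for the degrees of the iterates -/
theorem deg_lower [CharZero K] (hk : 1 ≤ k) {d : ℕ} (hd : 2 ≤ d)
    (F : Fin k → MvPolynomial (Fin k) K[X]) (hF : Regular d F) (n : ℕ) :
    ∃ a, d ^ n ≤ (iter (skew F) n a).totalDegree := by
  classical
  obtain ⟨r, e, A, hr, hA, hid⟩ := cert_of_regular (by omega) F hF
  obtain ⟨m, hm⟩ := Pool.Agent.J6H86.LH.eventually_ne r hr
  have hne : (univ : Finset (Fin k)).Nonempty := ⟨⟨0, hk⟩, mem_univ _⟩
  let s : Option (Fin k) → MvPolynomial (Fin k) K := fun a => a.elim (C (m : K)) X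
  let h : ℕ → Fin k → MvPolynomial (Fin k) K := fun n j => bind₁ s (iter (skew F) n (some j))
  have hle : ∀ n j, (h n j).totalDegree ≤ (iter (skew F) n (some j)).totalDegree := by
    intro n j
    have h1 := td_eval₂ (C : K →+* MvPolynomial (Fin k) K) 0 s 1
      (iter (skew F) n (some j)).totalDegree (fun a => by
        cases a with
        | none =>
          change (C (m : K) : MvPolynomial (Fin k) K).totalDegree ≤ 1
          rw [totalDegree_C]
          exact Nat.zero_le _
        | some i =>
          change (X i : MvPolynomial (Fin k) K).totalDegree ≤ 1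
          rw [totalDegree_X]) (iter (skew F) n (some j)) (fun β => by rw [totalDegree_C]) le_rfl
    rw [zero_add, mul_one] at h1
    exact h1
  let φ : ℕ → K[X] →+* MvPolynomial (Fin k) K := fun n =>
    C.comp (Polynomial.evalRingHom ((m + n : ℕ) : K))
  have hrec : ∀ n j, h (n + 1) j = eval₂ (φ n) (h n) (F j) := by
    intro n j
    change bind₁ s (bind₁ (iter (skew F) n) (toAff (F j))) = _
    rw [bind₁_bind₁]
    change aeval (fun a => bind₁ s (iter (skew F) n a)) (toAff (F j)) = _
    rw [hom_toAff]
    congr 1
    apply Polynomial.ringHom_ext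
    · intro a
      change Polynomial.aeval _ (Polynomial.C a) = C ((Polynomial.C a).eval _)
      rw [Polynomial.aeval_C, Polynomial.eval_C]
      rfl
    · change Polynomial.aeval _ Polynomial.X = C (Polynomial.X.eval _)
      rw [Polynomial.aeval_X, Polynomial.eval_X, iter_none, map_add, bind₁_X_right, bind₁_C_right]
      change C (m : K) + _ = _
      push_cast
      rw [map_add]
  let D : ℕ → ℕ := fun n => univ.sup' hne fun j => (h n j).totalDegree
  have hD : ∀ n j, (h n j).totalDegree ≤ D n := fun n j =>
    le_sup' (fun j => (h n j).totalDegree) (mem_univ j)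
  have hDn : ∀ n, d ^ n ≤ D n := by
    intro n
    induction n with
    | zero =>
      rw [pow_zero]
      refine le_trans ?_ (hD 0 ⟨0, hk⟩)
      change 1 ≤ (bind₁ s (X (some ⟨0, hk⟩))).totalDegree
      rw [bind₁_X_right]
      change 1 ≤ (X (⟨0, hk⟩ : Fin k) : MvPolynomial (Fin k) K).totalDegree
      rw [totalDegree_X]
    | succ n ih =>
      obtain ⟨l, -, hl⟩ := exists_mem_eq_sup' hne fun j => (h n j).totalDegree
      have hlD : (h n l).totalDegree = D n := hl.symm
      let Y : Option (Fin k) → MvPolynomial (Fin k) K := fun a => a.elim 1 (h n)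
      have hYD : ∀ a, (Y a).totalDegree ≤ D n := by
        intro a
        cases a with
        | none =>
          change (1 : MvPolynomial (Fin k) K).totalDegree ≤ D n
          rw [totalDegree_one]
          exact Nat.zero_le _
        | some i => exact hD n i
      have h1 := congrArg (eval₂Hom (φ n) Y) (hid (some l))
      rw [map_mul, map_pow, eval₂Hom_C, eval₂Hom_X', map_sum] at h1
      have h2 : (eval₂Hom (φ n) Y (∑ j, A (some l) j * homog d F j) : MvPolynomial (Fin k) K).totalDegree ≤
          e * D n + D (n + 1) := by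
        rw [map_sum]
        refine totalDegree_finsetSum_le fun j _ => ?_
        rw [map_mul]
        refine (totalDegree_mul _ _).trans (Nat.add_le_add ?_ ?_)
        · have h3 := td_eval₂ (φ n) 0 Y (D n) e hYD (A (some l) j)
            (fun β => by
              change (C _ : MvPolynomial (Fin k) K).totalDegree ≤ 0
              rw [totalDegree_C]) (hA _ _).totalDegree_le
          rw [zero_add] at h3
          exact h3
        · cases j with
          | none =>
            change (eval₂Hom (φ n) Y (X none ^ d)).totalDegree ≤ _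
            rw [map_pow, eval₂Hom_X']
            change ((1 : MvPolynomial (Fin k) K) ^ d).totalDegree ≤ _
            rw [one_pow, totalDegree_one]
            exact Nat.zero_le _
          | some j =>
            have h4 := eval_homog (φ n) d F hF.1 Y rfl j
            change (eval₂ (φ n) Y (homog d F (some j))).totalDegree ≤ _
            rw [h4]
            have h5 : eval₂ (φ n) (fun i => Y (some i)) (F j) = h (n + 1) j := (hrec n j).symm
            rw [h5]
            exact hD (n + 1) j
      have h6 : (eval₂Hom (φ n) Y (∑ j, A (some l) j * homog d F j) : MvPolynomial (Fin k) K) =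
          C (r.eval ((m + n : ℕ) : K)) * h n l ^ (e + d) := by
        rw [map_sum]
        exact h1.symm
      have hrn : r.eval ((m + n : ℕ) : K) ≠ 0 := hm (m + n) (by omega)
      have hD1 : 1 ≤ D n := le_trans (Nat.one_le_pow _ _ (by omega)) ih
      have hl0 : h n l ≠ 0 := by
        intro h0
        rw [h0, totalDegree_zero] at hlD
        omega
      rw [h6, totalDegree_mul_of_isDomain (by rwa [Ne, C_eq_zero]) (pow_ne_zero _ hl0),
        totalDegree_C, zero_add, td_pow, hlD, add_mul] at h2
      calc d ^ (n + 1) = d * d ^ n := by rw [pow_succ]; ring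
        _ ≤ d * D n := Nat.mul_le_mul_left _ ih
        _ ≤ D (n + 1) := by omega
  obtain ⟨l, -, hl⟩ := exists_mem_eq_sup' hne fun j => (h n j).totalDegree
  exact ⟨some l, (hDn n).trans ((le_of_eq hl).trans (hle n l))⟩

end Pool.Agent.J6H86.KS
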