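import Mathlib

set_option autoImplicit false

/-! A sequence which is multiplied by about `d` in each step, with logarithmic errors. -/

namespace Pool.Agent.J6H86.KS

open Filter Topology

lemma log_step (n : ℕ) : Real.log ((n : ℝ) + 1 + 2) ≤ Real.log ((n : ℝ) + 2) + 1 / 2 := by
  have h2 : (0 : ℝ) < (n : ℝ) + 2 := by positivity
  have h3 : (n : ℝ) + 1 + 2 = ((n : ℝ) + 2) * (1 + 1 / ((n : ℝ) + 2)) := by
    field_simp
    ring
  rw [h3, Real.log_mul h2.ne' (by positivity)]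
  have h4 : Real.log (1 + 1 / ((n : ℝ) + 2)) ≤ 1 / ((n : ℝ) + 2) := by
    have := Real.log_le_sub_one_of_pos (show 0 < 1 + 1 / ((n : ℝ) + 2) by positivity)
    linarith
  have h5 : 1 / ((n : ℝ) + 2) ≤ 1 / 2 := by
    apply one_div_le_one_div_of_le (by norm_num)
    have : (0 : ℝ) ≤ n := Nat.cast_nonneg _
    linarith
  linarith

lemma log_lower (n : ℕ) : (2 / 3 : ℝ) ≤ Real.log ((n : ℝ) + 2) := by
  have h1 : Real.log 2 ≤ Real.log ((n : ℝ) + 2) := by
    apply Real.log_le_log (by norm_num)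
    have : (0 : ℝ) ≤ n := Nat.cast_nonneg _
    linarith
  have := Real.log_two_gt_d9
  linarith

lemma log_div_pow (d : ℕ) (hd : 2 ≤ d) (B : ℝ) :
    Tendsto (fun n : ℕ => B * Real.log ((n : ℝ) + 2) / (d : ℝ) ^ n) atTop (𝓝 0) := by
  have hd' : (1 : ℝ) < d := by
    have : (2 : ℝ) ≤ d := by exact_mod_cast hd
    linarith
  have h1 := tendsto_pow_const_div_const_pow_of_one_lt 1 hd'
  have h0 := tendsto_pow_const_div_const_pow_of_one_lt 0 hd'
  have h2 : Tendsto (fun n : ℕ => Real.log ((n : ℝ) + 2) / (d : ℝ) ^ n) atTop (𝓝 0) := by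
    refine squeeze_zero (fun n => div_nonneg ?_ (by positivity)) (fun n => ?_)
      (show Tendsto (fun n : ℕ => (n : ℝ) ^ 1 / (d : ℝ) ^ n + (n : ℝ) ^ 0 / (d : ℝ) ^ n) atTop
        (𝓝 0) by simpa using h1.add h0)
    · have := log_lower n
      linarith
    · rw [← add_div]
      apply div_le_div_of_nonneg_right _ (by positivity)
      have := Real.log_le_sub_one_of_pos (show (0 : ℝ) < (n : ℝ) + 2 by positivity)
      rw [pow_one, pow_zero]
      linarith
  have h3 := h2.const_mul B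
  rw [mul_zero] at h3
  refine h3.congr fun n => ?_
  ring

theorem dich (d : ℕ) (hd : 2 ≤ d) (a : ℕ → ℝ) (ha : ∀ n, 0 ≤ a n) (C : ℝ) (hC : 0 ≤ C) (n₁ : ℕ)
    (h1 : ∀ n ≥ n₁, d * a n ≤ C * Real.log ((n : ℝ) + 2) + a (n + 1))
    (h2 : ∀ n, a (n + 1) ≤ C * Real.log ((n : ℝ) + 2) + d * a n) :
    ∃ c : ℝ, Tendsto (fun n => a n / (d : ℝ) ^ n) atTop (𝓝 c) ∧
      (0 < c ∨ (c = 0 ∧ ∃ B : ℝ, ∀ n ≥ n₁, a n ≤ B * Real.log ((n : ℝ) + 2))) := by
  have hd2 : (2 : ℝ) ≤ d := by exact_mod_cast hd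
  have hd0 : (0 : ℝ) < d := by linarith
  set B := 4 * C with hB
  have hBn : 0 ≤ B := by positivity
  let u : ℕ → ℝ := fun n => (a n - B * Real.log ((n : ℝ) + 2)) / (d : ℝ) ^ n
  let v : ℕ → ℝ := fun n => (a n + B * Real.log ((n : ℝ) + 2)) / (d : ℝ) ^ n
  have hkey : ∀ n : ℕ, C * Real.log ((n : ℝ) + 2) + B * Real.log (((n + 1 : ℕ) : ℝ) + 2) ≤
      d * (B * Real.log ((n : ℝ) + 2)) := by
    intro n
    have e1 := log_step n
    have e2 := log_lower n
    have e3 : (((n + 1 : ℕ) : ℝ)) = (n : ℝ) + 1 := by push_cast; ring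
    rw [e3]
    have e4 : B * Real.log ((n : ℝ) + 1 + 2) ≤ B * (Real.log ((n : ℝ) + 2) + 1 / 2) :=
      mul_le_mul_of_nonneg_left e1 hBn
    have e5 : 2 * (B * Real.log ((n : ℝ) + 2)) ≤ d * (B * Real.log ((n : ℝ) + 2)) :=
      mul_le_mul_of_nonneg_right hd2 (mul_nonneg hBn (by linarith))
    rw [hB] at *
    nlinarith
  have hu : ∀ n ≥ n₁, u n ≤ u (n + 1) := by
    intro n hn
    have e1 := h1 n hn
    have e2 := hkey n
    change (a n - B * Real.log ((n : ℝ) + 2)) / (d : ℝ) ^ n ≤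
      (a (n + 1) - B * Real.log (((n + 1 : ℕ) : ℝ) + 2)) / (d : ℝ) ^ (n + 1)
    rw [div_le_div_iff₀ (by positivity) (by positivity), pow_succ]
    have e3 : (a n - B * Real.log ((n : ℝ) + 2)) * d ≤
        a (n + 1) - B * Real.log (((n + 1 : ℕ) : ℝ) + 2) := by nlinarith
    have e4 : 0 < (d : ℝ) ^ n := by positivity
    nlinarith [mul_le_mul_of_nonneg_right e3 e4.le]
  have hv : ∀ n, v (n + 1) ≤ v n := by
    intro n
    have e1 := h2 n
    have e2 := hkey n
    change (a (n + 1) + B * Real.log (((n + 1 : ℕ) : ℝ) + 2)) / (d : ℝ) ^ (n + 1) ≤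
      (a n + B * Real.log ((n : ℝ) + 2)) / (d : ℝ) ^ n
    rw [div_le_div_iff₀ (by positivity) (by positivity), pow_succ]
    have e3 : a (n + 1) + B * Real.log (((n + 1 : ℕ) : ℝ) + 2) ≤
        (a n + B * Real.log ((n : ℝ) + 2)) * d := by nlinarith
    have e4 : 0 < (d : ℝ) ^ n := by positivity
    nlinarith [mul_le_mul_of_nonneg_right e3 e4.le]
  have hv0 : ∀ n, v n ≤ v 0 := by
    intro n
    induction n with
    | zero => exact le_rfl
    | succ n ih => exact (hv n).trans ih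
  have huv : ∀ n, u n ≤ v n := by
    intro n
    apply div_le_div_of_nonneg_right _ (by positivity)
    have := log_lower n
    nlinarith [mul_nonneg hBn (show 0 ≤ Real.log ((n : ℝ) + 2) by linarith)]
  have hmono : Monotone fun n => u (n + n₁) := by
    apply monotone_nat_of_le_succ
    intro n
    have := hu (n + n₁) (by omega)
    rwa [show n + n₁ + 1 = n + 1 + n₁ by ring] at this
  have hbdd : BddAbove (Set.range fun n => u (n + n₁)) :=
    ⟨v 0, by rintro _ ⟨n, rfl⟩; exact (huv _).trans (hv0 _)⟩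
  obtain ⟨c, hc⟩ : ∃ c, Tendsto (fun n => u (n + n₁)) atTop (𝓝 c) :=
    ⟨_, tendsto_atTop_ciSup hmono hbdd⟩
  have hcu : Tendsto u atTop (𝓝 c) := (tendsto_add_atTop_iff_nat n₁).1 hc
  have hca : Tendsto (fun n => a n / (d : ℝ) ^ n) atTop (𝓝 c) := by
    have e1 := hcu.add (log_div_pow d hd B)
    rw [add_zero] at e1
    refine e1.congr fun n => ?_
    change (a n - B * Real.log ((n : ℝ) + 2)) / (d : ℝ) ^ n + _ = _
    rw [← add_div]
    congr 1
    ring
  refine ⟨c, hca, ?_⟩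
  by_cases hpos : ∃ n ≥ n₁, 0 < a n - B * Real.log ((n : ℝ) + 2)
  · left
    obtain ⟨n, hn, hg⟩ := hpos
    have e1 : 0 < u n := div_pos hg (by positivity)
    have e2 : ∀ m, u n ≤ u (m + n) := by
      intro m
      induction m with
      | zero => rw [zero_add]
      | succ m ih =>
        have := hu (m + n) (by omega)
        rw [show m + 1 + n = m + n + 1 by ring]
        exact ih.trans this
    have e3 : Tendsto (fun m => u (m + n)) atTop (𝓝 c) := (tendsto_add_atTop_iff_nat n).2 hcu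
    exact lt_of_lt_of_le e1 (ge_of_tendsto' e3 e2)
  · right
    push Not at hpos
    have hle : ∀ n ≥ n₁, a n ≤ B * Real.log ((n : ℝ) + 2) := fun n hn => by
      have := hpos n hn
      linarith
    refine ⟨?_, B, hle⟩
    have e1 : Tendsto (fun n => a n / (d : ℝ) ^ n) atTop (𝓝 0) := by
      refine tendsto_of_tendsto_of_tendsto_of_le_of_le' tendsto_const_nhds (log_div_pow d hd B)
        (Eventually.of_forall fun n => div_nonneg (ha n) (by positivity)) ?_
      filter_upwards [eventually_ge_atTop n₁] with n hn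
      exact div_le_div_of_nonneg_right (hle n hn) (by positivity)
    exact tendsto_nhds_unique hca e1

/-- growth rate of a sequence asymptotic to `c d ^ n` -/
theorem rate_of_limit (d : ℕ) (hd : 2 ≤ d) (a : ℕ → ℝ) (c : ℝ) (hc : 0 < c)
    (h : Tendsto (fun n => a n / (d : ℝ) ^ n) atTop (𝓝 c)) :
    Tendsto (fun n : ℕ => (max (a n) 1) ^ (1 / (n : ℝ))) atTop (𝓝 (d : ℝ)) := by
  have hd2 : (2 : ℝ) ≤ d := by exact_mod_cast hd
  have hd0 : (0 : ℝ) < d := by linarith
  have h1 : Tendsto (fun n : ℕ => Real.log (a n / (d : ℝ) ^ n) / n) atTop (𝓝 0) := by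
    have e1 : Tendsto (fun n => Real.log (a n / (d : ℝ) ^ n)) atTop (𝓝 (Real.log c)) :=
      (Real.continuousAt_log hc.ne').tendsto.comp h
    exact e1.div_atTop tendsto_natCast_atTop_atTop
  have h2 : Tendsto (fun n : ℕ => Real.exp (Real.log (a n / (d : ℝ) ^ n) / n + Real.log d)) atTop
      (𝓝 (d : ℝ)) := by
    have e1 := (Real.continuous_exp.tendsto _).comp (h1.add_const (Real.log d))
    rw [zero_add, Real.exp_log hd0] at e1
    exact e1
  have h3 : ∀ᶠ n in atTop, c / 2 < a n / (d : ℝ) ^ n := h.eventually (lt_mem_nhds (by linarith))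
  have h4 : ∀ᶠ n : ℕ in atTop, 2 / c < (d : ℝ) ^ n :=
    (tendsto_pow_atTop_atTop_of_one_lt (by linarith)).eventually_gt_atTop _
  refine h2.congr' ?_
  filter_upwards [h3, h4, eventually_gt_atTop 0] with n hn1 hn2 hn0
  have hdn : 0 < (d : ℝ) ^ n := by positivity
  have ha1 : 1 < a n := by
    rw [lt_div_iff₀ hdn] at hn1
    rw [div_lt_iff₀ hc] at hn2
    nlinarith
  rw [max_eq_left ha1.le, Real.rpow_def_of_pos (by linarith)]
  congr 1
  rw [Real.log_div (by linarith) hdn.ne', Real.log_pow]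
  have : (n : ℝ) ≠ 0 := by exact_mod_cast hn0.ne'
  field_simp
  ring

end Pool.Agent.J6H86.KS
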