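import Pool.Agent.J6H86.KS.Cert
import Pool.Agent.J6H86.LH.LogB

set_option autoImplicit false

/-! Height inequalities for forms whose coefficients are polynomials in the index. -/

namespace Pool.Agent.J6H86.KS

open MvPolynomial Height AdmissibleAbsValues Pool.Agent.J6H86.LH
open scoped Polynomial

variable {K : Type*} [Field K] [AdmissibleAbsValues K] {σ ι : Type*} [Fintype σ] [Fintype ι]

omit [AdmissibleAbsValues K] [Fintype σ] in
lemma eval_map_sum (P : MvPolynomial σ K[X]) (B : Finset (σ →₀ ℕ)) (hB : P.support ⊆ B) (t : K)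
    (Y : σ → K) : eval Y (map (Polynomial.evalRingHom t) P) =
      ∑ β : B, (coeff β.1 P).eval t * eval Y (monomial β.1 1) := by
  classical
  rw [Finset.sum_coe_sort B (fun β => (coeff β P).eval t * eval Y (monomial β 1))]
  rw [← Finset.sum_subset hB]
  · conv_lhs => rw [P.as_sum]
    rw [map_sum, map_sum]
    refine Finset.sum_congr rfl fun β _ => ?_
    rw [map_monomial, eval_monomial, eval_monomial, one_mul]
    rfl
  · intro β _ hβ
    rw [notMem_support_iff.1 hβ, Polynomial.eval_zero, zero_mul]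

/-- upper bound -/
theorem upper (P : ι → MvPolynomial σ K[X]) {m : ℕ} (hP : ∀ j, (P j).IsHomogeneous m) :
    ∃ C : ℝ, 0 ≤ C ∧ ∀ (n : ℕ) (Y : σ → K),
      logHeight (fun j => eval Y (map (Polynomial.evalRingHom (n : K)) (P j))) ≤
        C * Real.log (n + 2) + m * logHeight Y := by
  classical
  let B : Finset (σ →₀ ℕ) := Finset.univ.biUnion fun j => (P j).support
  have hB : ∀ j, (P j).support ⊆ B := fun j β hβ =>
    Finset.mem_biUnion.2 ⟨j, Finset.mem_univ _, hβ⟩
  have hBd : ∀ β : B, (monomial β.1 (1 : K)).IsHomogeneous m := by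
    rintro ⟨β, hβ⟩
    obtain ⟨j, -, hj⟩ := Finset.mem_biUnion.1 hβ
    apply isHomogeneous_monomial
    have h1 := hP j (mem_support_iff.1 hj)
    rw [← h1, Finsupp.degree_eq_weight_one]
    rfl
  obtain ⟨c, hc⟩ : ∃ c : ℝ, ∀ Y : σ → K, logHeight (fun β : B => eval Y (monomial β.1 (1 : K))) ≤
      c + m * logHeight Y := ⟨_, fun Y => logHeight_eval_le hBd Y⟩
  have hL : Lg fun n : ℕ => totalWeight K * Real.log (Nat.card B) +
      ∑ x : ι × B, logHeight₁ ((coeff x.2.1 (P x.1)).eval (n : K)) + c := by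
    apply Lg.add _ (Lg.const _)
    apply Lg.add (Lg.const _)
    apply Lg.sum
    intro x _
    exact lg_poly _
  obtain ⟨C, hC, h⟩ := hL
  refine ⟨C, hC, fun n Y => ?_⟩
  have h1 : (fun j => eval Y (map (Polynomial.evalRingHom (n : K)) (P j))) =
      fun j => ∑ β : B, (fun x : ι × B => (coeff x.2.1 (P x.1)).eval (n : K)) (j, β) *
        (fun β : B => eval Y (monomial β.1 (1 : K))) β := by
    funext j
    exact eval_map_sum (P j) B (hB j) _ _
  rw [h1]
  have h2 := logHeight_linearMap_apply_le (fun x : ι × B => (coeff x.2.1 (P x.1)).eval (n : K))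
    (fun β : B => eval Y (monomial β.1 (1 : K)))
  have h3 := logHeight_le_sum (fun x : ι × B => (coeff x.2.1 (P x.1)).eval (n : K))
  have h4 := hc Y
  have h5 := h n
  linarith

/-- lower bound -/
theorem lower (P : ι → MvPolynomial σ K[X]) {d : ℕ} (r : K[X]) (e : ℕ)
    (A : σ → ι → MvPolynomial σ K[X]) (hA : ∀ l j, (A l j).IsHomogeneous e)
    (hid : ∀ l, C r * X l ^ (e + d) = ∑ j, A l j * P j) :
    ∃ C' : ℝ, 0 ≤ C' ∧ ∀ (n : ℕ) (Y : σ → K), r.eval (n : K) ≠ 0 →
      d * logHeight Y ≤ C' * Real.log (n + 2) +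
        logHeight (fun j => eval Y (map (Polynomial.evalRingHom (n : K)) (P j))) := by
  classical
  obtain ⟨c, hc, h⟩ := upper (fun x : σ × ι => A x.1 x.2) (m := e) (fun x => hA x.1 x.2)
  obtain ⟨C', hC', h'⟩ := (Lg.const (totalWeight K * Real.log (Nat.card ι))).add
    (show Lg fun n : ℕ => c * Real.log (n + 2) from ⟨c, hc, fun n => le_rfl⟩)
  refine ⟨C', hC', fun n Y hr => ?_⟩
  have h1 : ∀ l, r.eval (n : K) * Y l ^ (e + d) =
      ∑ j, (fun x : σ × ι => eval Y (map (Polynomial.evalRingHom (n : K)) (A x.1 x.2))) (l, j) *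
        eval Y (map (Polynomial.evalRingHom (n : K)) (P j)) := by
    intro l
    have h2 := congrArg (fun G => eval Y (map (Polynomial.evalRingHom (n : K)) G)) (hid l)
    simp only [map_mul, map_pow, map_sum, map_C, map_X, eval_C, eval_X] at h2
    exact h2
  have h3 : logHeight (fun l => r.eval (n : K) * Y l ^ (e + d)) = (e + d : ℕ) * logHeight Y := by
    have e1 : (fun l => r.eval (n : K) * Y l ^ (e + d)) = r.eval (n : K) • (Y ^ (e + d)) := by
      funext l
      simp
    rw [e1, logHeight_smul_eq_logHeight _ hr, logHeight_pow]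
  have h4 := logHeight_linearMap_apply_le
    (fun x : σ × ι => eval Y (map (Polynomial.evalRingHom (n : K)) (A x.1 x.2)))
    (fun j => eval Y (map (Polynomial.evalRingHom (n : K)) (P j)))
  have h5 : (fun l => ∑ j, (fun x : σ × ι => eval Y (map (Polynomial.evalRingHom (n : K))
      (A x.1 x.2))) (l, j) * (fun j => eval Y (map (Polynomial.evalRingHom (n : K)) (P j))) j) =
      fun l => r.eval (n : K) * Y l ^ (e + d) := funext fun l => (h1 l).symm
  rw [h5, h3] at h4
  have h6 := h n Y
  have h7 := h' n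
  push_cast at h4
  linarith

end Pool.Agent.J6H86.KS
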