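import Pool.Agent.J6H86.AG.Van

set_option autoImplicit false

/-! Finitely many elements of a number field are `S`-integers for a finite set `S` of places, and
there is a prime number with no place above it in `S`. -/

namespace Pool.Agent.J6H86.KS

open NumberField IsDedekindDomain Pool.Agent.J6H86.AG

variable {K : Type*} [Field K] [NumberField K]

lemma exists_S (T : Set K) (hT : T.Finite) :
    ∃ S : Finset (HeightOneSpectrum (𝓞 K)), ∀ c ∈ T, SInt S c := by
  classical
  have hfin : (⋃ s ∈ T \ {0}, (fun w : FinitePlace K => w s).mulSupport).Finite := by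
    apply Set.Finite.biUnion (hT.subset Set.sdiff_subset)
    intro s hs
    exact FinitePlace.hasFiniteMulSupport hs.2
  have hfin2 := hfin.preimage (f := FinitePlace.mk (K := K))
    (fun a _ b _ h => FinitePlace.mk_eq_iff.1 h)
  refine ⟨hfin2.toFinset, fun c hc v hv => ?_⟩
  by_cases h0 : c = 0
  · rw [h0, map_zero]
    exact zero_le_one
  · rw [← fp_le_one]
    by_contra hcon
    apply hv
    rw [Set.Finite.mem_toFinset, Set.mem_preimage, Set.mem_iUnion₂]
    refine ⟨c, ⟨hc, h0⟩, fun h1 => hcon (le_of_eq h1)⟩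

lemma exists_p (S : Finset (HeightOneSpectrum (𝓞 K))) :
    ∃ p : ℕ, p.Prime ∧ ∀ v ∈ S, (p : 𝓞 K) ∉ v.asIdeal := by
  obtain ⟨p, hp, hprime⟩ := Nat.exists_infinite_primes ((∑ v ∈ S, Ideal.absNorm v.asIdeal) + 1)
  refine ⟨p, hprime, fun v hv hpv => ?_⟩
  have h1 := NumberField.HeightOneSpectrum.one_lt_absNorm v
  have h2 : Ideal.absNorm v.asIdeal ≤ ∑ v ∈ S, Ideal.absNorm v.asIdeal :=
    Finset.single_le_sum (f := fun v : HeightOneSpectrum (𝓞 K) => Ideal.absNorm v.asIdeal)
      (fun _ _ => Nat.zero_le _) hv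
  have hcop : IsCoprime (p : ℤ) (Ideal.absNorm v.asIdeal : ℤ) := Nat.isCoprime_iff_coprime.2
    ((Nat.Prime.coprime_iff_not_dvd hprime).2 fun h => by
      have := Nat.le_of_dvd (by omega) h
      omega)
  obtain ⟨w, u, hwu⟩ := hcop
  have h3 : (1 : 𝓞 K) = (w : 𝓞 K) * p + (u : 𝓞 K) * (Ideal.absNorm v.asIdeal : ℕ) := by
    have := congrArg (Int.cast : ℤ → 𝓞 K) hwu
    push_cast at this
    exact this.symm
  apply v.isPrime.ne_top
  rw [Ideal.eq_top_iff_one, h3]
  exact add_mem (Ideal.mul_mem_left _ _ hpv) (Ideal.mul_mem_left _ _ (Ideal.absNorm_mem _))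

end Pool.Agent.J6H86.KS
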