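import Pool.Agent.J6H86.KS.Ht
import Pool.Agent.J6H86.KS.Dich
import Pool.Agent.J6H86.KS.Deg
import Pool.Agent.J6H86.KS.Places
import Pool.Agent.J6H86.AG.Main
import Pool.Agent.J6H86.AG.Dim

set_option autoImplicit false

/-! Orbits of skew products over a translation: the dichotomy. -/

namespace Pool.Agent.J6H86.KS

open MvPolynomial Height AdmissibleAbsValues NumberField IsDedekindDomain Filter Topology
open Pool.Agent.J6H86.LH Pool.Agent.J6H86.AG
open scoped Polynomial

/-- the height of a point of affine space: the height of `(1 : x)` -/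
noncomputable def hgt {K : Type*} [Field K] [AdmissibleAbsValues K] {σ : Type*} (x : σ → K) : ℝ :=
  logHeight (fun a : Option σ => a.elim 1 x)

section general

variable {K : Type*} [Field K] [AdmissibleAbsValues K]

lemma coord_le {σ : Type*} [Finite σ] (x : σ → K) (j : σ) : logHeight₁ (x j) ≤ hgt x := by
  rw [logHeight₁_eq_logHeight]
  have h1 : (![x j, 1] : Fin 2 → K) =
      (fun a : Option σ => a.elim 1 x) ∘ (![some j, none] : Fin 2 → Option σ) := by
    funext i
    fin_cases i <;> simp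
  rw [h1]
  exact logHeight_comp_le _ _

lemma hgt_le_of_comp {σ τ : Type*} [Finite σ] [Finite τ] (x : σ → K) (g : τ → σ) :
    hgt (fun i => x (g i)) ≤ hgt x := by
  have h1 : (fun a : Option τ => a.elim 1 fun i => x (g i)) =
      (fun a : Option σ => a.elim 1 x) ∘ (Option.map g) := by
    funext a
    cases a <;> rfl
  unfold hgt
  rw [h1]
  exact logHeight_comp_le _ _

lemma hgt_option {k : ℕ} (t : K) (y : Fin k → K) :
    hgt (fun a : Option (Fin k) => a.elim t y) ≤ logHeight₁ t + hgt y := by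
  have hx : (![t, 1] : Fin 2 → K) ≠ 0 := fun h => by
    have := congrFun h 1
    simp at this
  have hy : (fun a : Option (Fin k) => a.elim 1 y) ≠ 0 := fun h => by
    have := congrFun h none
    simp at this
  have h1 := logHeight_fun_mul_eq hx hy
  rw [← logHeight₁_eq_logHeight] at h1
  unfold hgt
  rw [← h1]
  let g : Option (Option (Fin k)) → Fin 2 × Option (Fin k) := fun a =>
    a.elim (1, none) fun b => b.elim (0, none) fun i => (1, some i)
  have h2 : (fun a : Option (Option (Fin k)) => a.elim 1 fun a : Option (Fin k) => a.elim t y) =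
      (fun a : Fin 2 × Option (Fin k) => (![t, 1] : Fin 2 → K) a.1 *
        (fun a : Option (Fin k) => a.elim 1 y) a.2) ∘ g := by
    funext a
    rcases a with _ | _ | i <;> simp [g]
  rw [h2]
  exact logHeight_comp_le _ _

end general

variable {K : Type*} [Field K] [NumberField K] {k : ℕ}

/-- the heights along the orbit in the fibre coordinates -/
theorem fibre_dich {d : ℕ} (hd : 2 ≤ d) (F : Fin k → MvPolynomial (Fin k) K[X]) (hF : Regular d F)
    (t₀ : K) (y : ℕ → Fin k → K)
    (hy : ∀ n j, y (n + 1) j = eval (y n) (map (Polynomial.evalRingHom (t₀ + n)) (F j))) :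
    ∃ c : ℝ, Tendsto (fun n => hgt (y n) / (d : ℝ) ^ n) atTop (𝓝 c) ∧
      (0 < c ∨ (c = 0 ∧ ∃ (B : ℝ) (n₁ : ℕ), ∀ n ≥ n₁, hgt (y n) ≤ B * Real.log ((n : ℝ) + 2))) := by
  classical
  obtain ⟨r, e, A, hr, hA, hid⟩ := cert_of_regular (by omega) F hF
  let τ : K[X] →+* K[X] := Polynomial.compRingHom (Polynomial.X + Polynomial.C t₀)
  have hτ : ∀ (p : K[X]) (n : ℕ), (τ p).eval (n : K) = p.eval (t₀ + n) := by
    intro p n
    change (p.comp _).eval _ = _
    rw [Polynomial.eval_comp, Polynomial.eval_add, Polynomial.eval_X, Polynomial.eval_C, add_comm]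
  have hcomp : ∀ n : ℕ, (Polynomial.evalRingHom (n : K)).comp τ = Polynomial.evalRingHom (t₀ + n) :=
    fun n => RingHom.ext fun p => hτ p n
  have hτr : τ r ≠ 0 := by
    intro h0
    change r.comp (Polynomial.X + Polynomial.C t₀) = 0 at h0
    rw [Polynomial.comp_eq_zero_iff] at h0
    rcases h0 with h0 | h0
    · exact hr h0
    · have h2 := congrArg (fun q => Polynomial.coeff q 1) h0.2
      simp [Polynomial.coeff_X, Polynomial.coeff_C] at h2
  obtain ⟨n₁, hn₁⟩ := eventually_ne (τ r) hτr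
  let P : Option (Fin k) → MvPolynomial (Option (Fin k)) K[X] := fun a => map τ (homog d F a)
  obtain ⟨C₁, hC₁, hup⟩ := upper P (m := d) fun a => (homog_hom d F a).map τ
  obtain ⟨C₂, hC₂, hlo⟩ := lower P (d := d) (τ r) e (fun l j => map τ (A l j))
    (fun l j => (hA l j).map τ) (fun l => by
      have h1 := congrArg (MvPolynomial.map τ) (hid l)
      rw [map_mul, map_pow, map_C, map_X, map_sum] at h1
      rw [h1]
      exact Finset.sum_congr rfl fun j _ => map_mul _ _ _)
  let Y : ℕ → Option (Fin k) → K := fun n a => a.elim 1 (y n)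
  have hstep : ∀ n, (fun a => eval (Y n) (map (Polynomial.evalRingHom (n : K)) (P a))) = Y (n + 1) := by
    intro n
    funext a
    have h1 : map (Polynomial.evalRingHom (n : K)) (P a) =
        map (Polynomial.evalRingHom (t₀ + n)) (homog d F a) := by
      change MvPolynomial.map _ (MvPolynomial.map τ _) = _
      rw [MvPolynomial.map_map, hcomp]
    rw [h1]
    cases a with
    | none =>
      change eval (Y n) (map _ (X none ^ d)) = 1
      rw [map_pow, map_X, map_pow, eval_X]
      exact one_pow _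
    | some j =>
      rw [eval_map, eval_homog _ d F hF.1 (Y n) rfl]
      change _ = y (n + 1) j
      rw [hy, eval_map]
      rfl
  have ha : ∀ n, 0 ≤ logHeight (Y n) := fun n => logHeight_nonneg _
  have hlog : ∀ n : ℕ, 0 ≤ Real.log ((n : ℝ) + 2) := fun n => by
    have := log_lower n
    linarith
  obtain ⟨c, hc, hcase⟩ := dich d hd (fun n => logHeight (Y n)) ha (C₁ + C₂) (by positivity) n₁
    (fun n hn => by
      have h1 := hlo n (Y n) (hn₁ n hn)
      rw [hstep] at h1
      have := mul_nonneg hC₁ (hlog n)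
      rw [add_mul]
      linarith)
    (fun n => by
      have h1 := hup n (Y n)
      rw [hstep] at h1
      have := mul_nonneg hC₂ (hlog n)
      rw [add_mul]
      linarith)
  refine ⟨c, hc, hcase.imp_right fun h => ⟨h.1, ?_⟩⟩
  obtain ⟨B, hB⟩ := h.2
  exact ⟨B, n₁, hB⟩

/-- a slow orbit is given by polynomials -/
theorem slow_poly (F : Fin k → MvPolynomial (Fin k) K[X]) (t₀ : K) (y : ℕ → Fin k → K)
    (hy : ∀ n j, y (n + 1) j = eval (y n) (map (Polynomial.evalRingHom (t₀ + n)) (F j)))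
    (B : ℝ) (n₁ : ℕ) (hB : ∀ n ≥ n₁, hgt (y n) ≤ B * Real.log ((n : ℝ) + 2)) :
    ∃ M > 0, ∃ n₀ : ℕ, ∀ i j, ∃ P : K[X], ∀ n ≥ n₀, y (M * n + i) j = P.eval (n : K) := by
  classical
  let f := skew F
  let x : ℕ → Option (Fin k) → K := fun n a => a.elim (t₀ + n) (y n)
  have hx : ∀ n a, x (n + 1) a = eval (x n) (f a) := by
    intro n a
    cases a with
    | none =>
      change t₀ + ((n + 1 : ℕ) : K) = eval (x n) (X none + 1)
      rw [map_add, eval_X, map_one]
      change _ = t₀ + (n : K) + 1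
      push_cast
      ring
    | some j =>
      change y (n + 1) j = eval (x n) (toAff (F j))
      rw [hy, ← coe_aeval_eq_eval (x n), RingHom.coe_coe, hom_toAff, eval_map]
      rfl
  -- a finite set of places
  let T : Set K := (⋃ a, ((f a).coeffs : Set K)) ∪ Set.range (x 0)
  have hT : T.Finite := (Set.finite_iUnion fun a => Finset.finite_toSet _).union (Set.finite_range _)
  obtain ⟨S, hS⟩ := exists_S T hT
  obtain ⟨p, hp, hpS⟩ := exists_p S
  have : Fact p.Prime := ⟨hp⟩
  obtain ⟨M, hM, -, H⟩ := AG.main p S hpS f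
    (fun a c hc => hS c (Or.inl (Set.mem_iUnion.2 ⟨a, hc⟩))) x
    (fun a => hS _ (Or.inr ⟨a, rfl⟩)) hx
  set ε : ℝ := (Module.finrank ℚ K : ℝ) /
    (6 * (p : ℝ) ^ (Module.finrank ℚ K * (2 * Fintype.card (Option (Fin k)) + 1)) *
      (Module.finrank ℚ K + S.card)) with hε
  have hd0 : (0 : ℝ) < Module.finrank ℚ K := by exact_mod_cast Module.finrank_pos
  have hp0 : (0 : ℝ) < p := by exact_mod_cast hp.pos
  have hε0 : 0 < ε := by
    rw [hε]
    positivity
  -- the heights are eventually small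
  have hlim : Tendsto (fun n : ℕ => B * Real.log ((n : ℝ) + 2) / n) atTop (𝓝 0) := by
    have h1 : Tendsto (fun n : ℕ => Real.log ((n : ℝ) + 2) / ((n : ℝ) + 2)) atTop (𝓝 0) := by
      have h2 := (Real.isLittleO_log_id_atTop).tendsto_div_nhds_zero
      have h3 : Tendsto (fun n : ℕ => (n : ℝ) + 2) atTop atTop :=
        tendsto_atTop_add_const_right _ _ tendsto_natCast_atTop_atTop
      exact h2.comp h3
    have h4 : Tendsto (fun n : ℕ => ((n : ℝ) + 2) / n) atTop (𝓝 1) := by
      have h5 : Tendsto (fun n : ℕ => 1 + 2 / (n : ℝ)) atTop (𝓝 (1 + 0)) :=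
        tendsto_const_nhds.add (tendsto_const_div_atTop_nhds_zero_nat 2)
      rw [add_zero] at h5
      refine h5.congr' ?_
      filter_upwards [eventually_gt_atTop 0] with n hn
      have : (n : ℝ) ≠ 0 := by exact_mod_cast hn.ne'
      field_simp
    have h6 := ((h1.mul h4).const_mul B)
    rw [zero_mul, mul_zero] at h6
    refine h6.congr' ?_
    filter_upwards [eventually_gt_atTop 0] with n hn
    have h7 : (n : ℝ) ≠ 0 := by exact_mod_cast hn.ne'
    have h8 : (n : ℝ) + 2 ≠ 0 := by positivity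
    field_simp
  have hsmall : ∀ᶠ n : ℕ in atTop, B * Real.log ((n : ℝ) + 2) ≤ ε * n := by
    filter_upwards [hlim.eventually (gt_mem_nhds hε0), eventually_gt_atTop 0] with n hn hn0
    have h7 : (0 : ℝ) < n := by exact_mod_cast hn0
    rw [div_lt_iff₀ h7] at hn
    exact hn.le
  have hall : ∀ j : Fin k, ∃ n₀ : ℕ, ∀ i, ∃ P : K[X], ∀ n ≥ n₀, y (M * n + i) j = P.eval (n : K) := by
    intro j
    obtain ⟨n₀, h0⟩ := H (X (some j)) (by
      intro c hc
      obtain ⟨m, -, rfl⟩ := mem_coeffs_iff.1 hc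
      intro v _
      rw [coeff_X]
      split_ifs
      · rw [map_one]
      · rw [map_zero]
        exact zero_le_one) (by
      filter_upwards [hsmall, eventually_ge_atTop n₁] with n h1 h2
      rw [eval_X]
      calc logHeight₁ (y n j) ≤ hgt (y n) := coord_le _ _
        _ ≤ B * Real.log ((n : ℝ) + 2) := hB n h2
        _ ≤ ε * n := h1
        _ = _ := by rw [hε]; ring)
    refine ⟨n₀, fun i => ?_⟩
    obtain ⟨P, hP⟩ := h0 i
    exact ⟨P, fun n hn => by
      have := hP n hn
      rwa [eval_X] at this⟩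
  choose n₀ h0 using hall
  refine ⟨M, hM, ∑ j, n₀ j, fun i j => ?_⟩
  obtain ⟨P, hP⟩ := h0 j i
  exact ⟨P, fun n hn => hP n (le_trans (Finset.single_le_sum (fun _ _ => Nat.zero_le _)
    (Finset.mem_univ j)) hn)⟩

/-- **The dichotomy.** -/
theorem main {d : ℕ} (hd : 2 ≤ d) (F : Fin k → MvPolynomial (Fin k) K[X]) (hF : Regular d F)
    (t₀ : K) (y : ℕ → Fin k → K)
    (hy : ∀ n j, y (n + 1) j = eval (y n) (map (Polynomial.evalRingHom (t₀ + n)) (F j)))
    (x : ℕ → Option (Fin k) → K) (hx : ∀ n, x n = fun a => a.elim (t₀ + n) (y n)) :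
    ∃ c : ℝ, Tendsto (fun n => hgt (x n) / (d : ℝ) ^ n) atTop (𝓝 c) ∧
      ((0 < c ∧ Tendsto (fun n : ℕ => (max (hgt (x n)) 1) ^ (1 / (n : ℝ))) atTop (𝓝 (d : ℝ))) ∨
      (c = 0 ∧ (∃ (B : ℝ) (n₁ : ℕ), ∀ n ≥ n₁, hgt (x n) ≤ B * Real.log ((n : ℝ) + 2)) ∧
        ∃ M > 0, ∃ n₀ : ℕ, ∀ i j, ∃ P : K[X], ∀ n ≥ n₀, y (M * n + i) j = P.eval (n : K))) := by
  obtain ⟨c, hc, hcase⟩ := fibre_dich hd F hF t₀ y hy
  obtain ⟨C, hC, hlg⟩ : Lg fun n => logHeight₁ (t₀ + (n : K)) := by
    have h1 := lg_poly (Polynomial.X + Polynomial.C t₀ : K[X])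
    simp only [Polynomial.eval_add, Polynomial.eval_X, Polynomial.eval_C] at h1
    simpa only [add_comm] using h1
  have hle1 : ∀ n, hgt (y n) ≤ hgt (x n) := by
    intro n
    have h1 := hgt_le_of_comp (x n) (some : Fin k → Option (Fin k))
    have h2 : (fun i => x n (some i)) = y n := by
      rw [hx]
      rfl
    rwa [h2] at h1
  have hle2 : ∀ n, hgt (x n) ≤ C * Real.log ((n : ℝ) + 2) + hgt (y n) := by
    intro n
    have h1 := hgt_option (t₀ + (n : K)) (y n)
    rw [← hx] at h1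
    have h2 := hlg n
    linarith
  have hd0 : (0 : ℝ) < d := by
    have : (2 : ℝ) ≤ d := by exact_mod_cast hd
    linarith
  have hcx : Tendsto (fun n => hgt (x n) / (d : ℝ) ^ n) atTop (𝓝 c) := by
    refine tendsto_of_tendsto_of_tendsto_of_le_of_le hc
      (show Tendsto (fun n : ℕ => C * Real.log ((n : ℝ) + 2) / (d : ℝ) ^ n + hgt (y n) / (d : ℝ) ^ n)
        atTop (𝓝 c) by simpa using (log_div_pow d hd C).add hc) (fun n => ?_) (fun n => ?_)
    · exact div_le_div_of_nonneg_right (hle1 n) (by positivity)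
    · change hgt (x n) / (d : ℝ) ^ n ≤
        C * Real.log ((n : ℝ) + 2) / (d : ℝ) ^ n + hgt (y n) / (d : ℝ) ^ n
      rw [← add_div]
      exact div_le_div_of_nonneg_right (hle2 n) (by positivity)
  refine ⟨c, hcx, ?_⟩
  rcases hcase with h | ⟨h0, B, n₁, hB⟩
  · exact Or.inl ⟨h, rate_of_limit d hd _ c h hcx⟩
  · refine Or.inr ⟨h0, ⟨C + B, n₁, fun n hn => ?_⟩, slow_poly F t₀ y hy B n₁ hB⟩
    have h1 := hle2 n
    have h2 := hB n hn
    rw [add_mul]
    linarith

omit [NumberField K] in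
/-- an orbit given by polynomials is not Zariski dense -/
theorem not_dense (hk : 1 ≤ k) (t₀ : K) (y : ℕ → Fin k → K) (x : ℕ → Option (Fin k) → K)
    (hx : ∀ n, x n = fun a => a.elim (t₀ + n) (y n))
    (h : ∃ M > 0, ∃ n₀ : ℕ, ∀ i j, ∃ P : K[X], ∀ n ≥ n₀, y (M * n + i) j = P.eval (n : K)) :
    ∃ G : MvPolynomial (Option (Fin k)) K, G ≠ 0 ∧ ∀ n, eval (x n) G = 0 := by
  obtain ⟨M, hM, n₀, h⟩ := h
  let j₀ : Fin k := ⟨0, hk⟩
  obtain ⟨R, hR, hR0⟩ := dep_seq (fun n => t₀ + (n : K)) (fun n => y n j₀) M n₀ hM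
    (fun i => ⟨Polynomial.C (M : K) * Polynomial.X + Polynomial.C (t₀ + (i : K)), fun n _ => by
      simp
      ring⟩)
    (fun i => h i j₀)
  let g : Fin 2 → Option (Fin k) := ![none, some j₀]
  have hg : Function.Injective g := by
    intro a b hab
    fin_cases a <;> fin_cases b <;> simp_all [g]
  refine ⟨rename g R, fun h0 => hR ((rename_injective g hg) (by rw [h0, map_zero])), fun n => ?_⟩
  rw [eval_rename]
  have h1 : x n ∘ g = ![t₀ + (n : K), y n j₀] := by
    funext a
    rw [hx]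
    fin_cases a <;> rfl
  rw [h1]
  exact hR0 n

end Pool.Agent.J6H86.KS
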