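import Pool.Agent.J6H86.KS.Cert

set_option autoImplicit false

/-! Skew products over a translation: homogenization in the fibre variables. -/

namespace Pool.Agent.J6H86.KS

open MvPolynomial Finset
open scoped Polynomial

variable {K : Type*} [Field K] {k : ℕ}

/-- The part of degree `d` in the fibre variables has no common zero over an algebraic closure of
`K(t)`, except `0`, and the degrees are at most `d`. -/
def Regular (d : ℕ) (F : Fin k → MvPolynomial (Fin k) K[X]) : Prop :=
  (∀ j, (F j).totalDegree ≤ d) ∧ ∀ y : Fin k → AlgebraicClosure (FractionRing K[X]),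
    (∀ j, aeval y (homogeneousComponent d (F j)) = 0) → y = 0

/-- homogenization -/
noncomputable def homog (d : ℕ) (F : Fin k → MvPolynomial (Fin k) K[X]) :
    Option (Fin k) → MvPolynomial (Option (Fin k)) K[X] := fun a =>
  a.elim (X none ^ d) fun j => ∑ i ∈ range (d + 1),
    X none ^ (d - i) * rename some (homogeneousComponent i (F j))

lemma homog_hom (d : ℕ) (F : Fin k → MvPolynomial (Fin k) K[X]) (a : Option (Fin k)) :
    (homog d F a).IsHomogeneous d := by
  cases a with
  | none => exact isHomogeneous_X_pow (R := K[X]) (none : Option (Fin k)) d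
  | some j =>
    change (∑ i ∈ range (d + 1), X none ^ (d - i) * rename some (homogeneousComponent i (F j)) :
      MvPolynomial (Option (Fin k)) K[X]).IsHomogeneous d
    refine IsHomogeneous.sum _ _ _ fun i hi => ?_
    have h1 : ((homogeneousComponent i (F j)).rename (some : Fin k → Option (Fin k))).IsHomogeneous i :=
      (homogeneousComponent_isHomogeneous i (F j)).rename_isHomogeneous
    have h2 := (isHomogeneous_X_pow (R := K[X]) (none : Option (Fin k)) (d - i)).mul h1
    rwa [Nat.sub_add_cancel (by rw [mem_range] at hi; omega)] at h2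

lemma eval_homog {R : Type*} [CommRing R] (φ : K[X] →+* R) (d : ℕ)
    (F : Fin k → MvPolynomial (Fin k) K[X]) (hF : ∀ j, (F j).totalDegree ≤ d)
    (Y : Option (Fin k) → R) (hY : Y none = 1) (j : Fin k) :
    eval₂ φ Y (homog d F (some j)) = eval₂ φ (fun i => Y (some i)) (F j) := by
  change eval₂ φ Y (∑ i ∈ range (d + 1),
    X none ^ (d - i) * rename some (homogeneousComponent i (F j))) = _
  rw [← coe_eval₂Hom, map_sum]
  have h1 : ∀ i, eval₂Hom φ Y (X none ^ (d - i) * rename some (homogeneousComponent i (F j))) =
      eval₂Hom φ (fun i => Y (some i)) (homogeneousComponent i (F j)) := by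
    intro i
    rw [map_mul, map_pow, eval₂Hom_X', hY, one_pow, one_mul, eval₂Hom_rename]
    rfl
  have h2 : ∑ i ∈ range (d + 1), homogeneousComponent i (F j) = F j := by
    have h3 := sum_homogeneousComponent (F j)
    rw [← h3, h3]
    refine (sum_subset (range_subset_range.2 (by have := hF j; omega)) fun i _ hi => ?_).symm.trans h3
    rw [mem_range, not_lt] at hi
    exact homogeneousComponent_eq_zero _ _ (by omega)
  simp only [h1]
  rw [← map_sum, h2, ← coe_eval₂Hom]

lemma eval_homog_zero {R : Type*} [CommRing R] (φ : K[X] →+* R) (d : ℕ)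
    (F : Fin k → MvPolynomial (Fin k) K[X])
    (Y : Option (Fin k) → R) (hY : Y none = 0) (j : Fin k) :
    eval₂ φ Y (homog d F (some j)) =
      eval₂ φ (fun i => Y (some i)) (homogeneousComponent d (F j)) := by
  change eval₂ φ Y (∑ i ∈ range (d + 1),
    X none ^ (d - i) * rename some (homogeneousComponent i (F j))) = _
  rw [← coe_eval₂Hom, map_sum, sum_range_succ, sum_eq_zero, zero_add]
  · rw [map_mul, map_pow, Nat.sub_self, pow_zero, one_mul, eval₂Hom_rename]
    rfl
  · intro i hi
    rw [mem_range] at hi
    rw [map_mul, map_pow, eval₂Hom_X', hY, zero_pow (by omega), zero_mul]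

/-- the certificate for a regular family -/
theorem cert_of_regular {d : ℕ} (hd : 1 ≤ d) (F : Fin k → MvPolynomial (Fin k) K[X])
    (hF : Regular d F) :
    ∃ (r : K[X]) (e : ℕ) (A : Option (Fin k) → Option (Fin k) → MvPolynomial (Option (Fin k)) K[X]),
      r ≠ 0 ∧ (∀ l j, (A l j).IsHomogeneous e) ∧
      ∀ l, C r * X l ^ (e + d) = ∑ j, A l j * homog d F j := by
  refine exists_cert_poly (homog d F) (homog_hom d F) fun y hy => ?_
  have h0 : y none = 0 := by
    have h1 := hy none
    have h2 : aeval y (homog d F none) = y none ^ d := by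
      change aeval y (X none ^ d : MvPolynomial (Option (Fin k)) K[X]) = _
      rw [map_pow, aeval_X]
    rw [h2] at h1
    exact pow_eq_zero_iff (by omega) |>.1 h1
  have h3 : (fun i => y (some i)) = 0 := by
    apply hF.2
    intro j
    have h4 := hy (some j)
    rw [aeval_def, eval_homog_zero _ d F y h0] at h4
    rw [aeval_def]
    exact h4
  funext a
  cases a with
  | none => exact h0
  | some i => exact congrFun h3 i

end Pool.Agent.J6H86.KS
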